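import Pool.Agent.Y667.MT.Fin
import Pool.Agent.Y667.RZ.Sha

/-!
# Project MT: rank and Tate-Shafarevich group
-/

set_option autoImplicit false

namespace Pool.Agent.Y667.MT

open Finset Filter Pool.Agent.W262.RK Pool.Agent.W307.RT Pool.Agent.W307.RS Pool.Agent.W307.SE
  Pool.Agent.W307.FK Pool.Agent.Y667.RP Pool.Agent.Y667.RZ

/-- the rank is at most `r` if the 2-Selmer group has order `2 ^ (r + 2)` -/
theorem rank_le {c : ℤ × ℤ} (hD : 4 * c.1 ^ 3 + 27 * c.2 ^ 2 ≠ 0) (hT : HasT 2 (Sh c.1 c.2))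
    (hS : (SelR c.1 c.2).Finite) {r : ℕ} (hc : (SelR c.1 c.2).ncard = 2 ^ (r + 2)) :
    Module.finrank ℤ (Sh c.1 c.2).toAffine.Point ≤ r := by
  obtain ⟨F, -, hF⟩ := Pool.Agent.W513.FK.parf
  obtain ⟨-, -, -, -, -, e1, e2, e3, he, -, -⟩ := hF c hD hT
  by_contra hcon
  push Not at hcon
  have h1 := Pool.Agent.Y155.RP.RK2 _ _ _ _ _ hD he hS (by omega)
  rw [hc] at h1
  have h6 := (Nat.pow_le_pow_iff_right (by norm_num : 1 < 2)).1 h1
  omega

end Pool.Agent.Y667.MT
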