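import Pool.Agent.Y667.RZ.Fin2

/-!
# Project MT (helper667), problem MP_8cb858_nt: statements of the parts

For every `r` a positive proportion of the elliptic curves with full rational 2-torsion has a
2-Selmer group of order `2 ^ (r + 2)`. The data `(s, E)` now carry groups `V0 s E`, `V17 s E` of order
`2 ^ r`. Every `St_X` is the statement of one part.
-/

set_option autoImplicit false

namespace Pool.Agent.Y667.MT

open Finset Filter Pool.Agent.W262.RK Pool.Agent.W307.RT Pool.Agent.W307.RS Pool.Agent.W307.SE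
  Pool.Agent.W307.FK Pool.Agent.Y667.RP Pool.Agent.Y667.RZ

/-- with the signs `F` there is a new class at the new prime `q` of the third class, for the curve or
for its twist by 17 -/
def Nw (s : Fin 3 → ℕ) (E : Finset ℕ) (q : ℕ) (F : Finset ℕ) : Prop :=
  ¬ V0 (Function.update s 2 (s 2 * q)) F ⊆ V0 s E ∨
    ¬ V17 (Function.update s 2 (s 2 * q)) F ⊆ V17 s E

/-- both signs at `q` give a new class -/
def Ty2 (s : Fin 3 → ℕ) (E : Finset ℕ) (q : ℕ) : Prop := Nw s E q E ∧ Nw s E q (insert q E)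

/-- for one of the two signs the curve and its twist both get a new class -/
def Rs (s : Fin 3 → ℕ) (E : Finset ℕ) (q : ℕ) : Prop :=
  ∃ F : Finset ℕ, (F = E ∨ F = insert q E) ∧
    ¬ V0 (Function.update s 2 (s 2 * q)) F ⊆ V0 s E ∧
    ¬ V17 (Function.update s 2 (s 2 * q)) F ⊆ V17 s E

/-- the data with groups of order `2 ^ r` -/
def Dt (r : ℕ) (s : Fin 3 → ℕ) (E : Finset ℕ) : Prop :=
  (V0 s E).ncard = 2 ^ r ∧ (V17 s E).ncard = 2 ^ r ∧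
    ∀ σ : ℤ, σ = -1 ∨ σ = 2 ∨ σ = -2 → ∃ p : ℕ, p.Prime ∧ p ∣ ∏ j, s j ∧ jacobiSym σ p = -1

/-- **TYPE2** (the primes with two bad signs lie in at most half of the classes). -/
def St_TYPE2 : Prop := ∀ (s : Fin 3 → ℕ) (E : Finset ℕ), Squarefree (∏ j, s j) →
  Odd (∏ j, s j) → ¬ 17 ∣ ∏ j, s j → E ⊆ (∏ j, s j).primeFactors →
  ∀ q1 q2 q3 : ℕ, q1.Prime → q2.Prime → q3.Prime →
  ¬ q1 ∣ 34 * ∏ j, s j → ¬ q2 ∣ 34 * ∏ j, s j → ¬ q3 ∣ 34 * ∏ j, s j →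
  q3 ≡ q1 * q2 [MOD 136 * ∏ j, s j] → ¬ (Ty2 s E q1 ∧ Ty2 s E q2 ∧ Ty2 s E q3)

open Classical in
/-- **HALF2** (the primes with two bad signs have density at most one half). -/
def St_HALF2 : Prop := ∀ (X : ℕ) (s : Fin 3 → ℕ) (E : Finset ℕ), Squarefree (∏ j, s j) →
  Odd (∏ j, s j) → ¬ 17 ∣ ∏ j, s j → E ⊆ (∏ j, s j).primeFactors →
  (136 * (∏ j, s j : ℕ) : ℝ) < (X : ℝ) ^ (1 / 3 : ℝ) →
    ∑ q ∈ (Pt X).filter (fun q => Ty2 s E q), 1 / ((q : ℝ) - 1) ≤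
      (∑ q ∈ Pt X, 1 / ((q : ℝ) - 1)) / 2 + Dsc X (136 * ∏ j, s j)

/-- **EXI** (a prime which kills no class gives a new class for at least one sign). -/
def St_EXI : Prop := ∀ (s : Fin 3 → ℕ) (E : Finset ℕ) (q : ℕ), Squarefree (∏ j, s j) →
  Odd (∏ j, s j) → ¬ 17 ∣ ∏ j, s j → E ⊆ (∏ j, s j).primeFactors → q.Prime →
  ¬ q ∣ 34 * ∏ j, s j →
    ((∀ w ∈ V0 s E, sgn q w.1 = false) → ∃ F : Finset ℕ, (F = E ∨ F = insert q E) ∧
      ¬ V0 (Function.update s 2 (s 2 * q)) F ⊆ V0 s E) ∧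
    ((∀ w ∈ V17 s E, sgn q w.1 = false) → ∃ F : Finset ℕ, (F = E ∨ F = insert q E) ∧
      ¬ V17 (Function.update s 2 (s 2 * q)) F ⊆ V17 s E)

/-- **GRP** (a new prime at most halves the groups, and a new class doubles them). -/
def St_GRP : Prop := ∀ (s : Fin 3 → ℕ) (E : Finset ℕ) (q : ℕ), Squarefree (∏ j, s j) →
  Odd (∏ j, s j) → ¬ 17 ∣ ∏ j, s j → E ⊆ (∏ j, s j).primeFactors → q.Prime →
  ¬ q ∣ 34 * ∏ j, s j → ∀ F : Finset ℕ, (F = E ∨ F = insert q E) →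
    ((V0 s E).ncard ≤ 2 * (V0 (Function.update s 2 (s 2 * q)) F).ncard ∧
      (V17 s E).ncard ≤ 2 * (V17 (Function.update s 2 (s 2 * q)) F).ncard) ∧
    (¬ V0 (Function.update s 2 (s 2 * q)) F ⊆ V0 s E →
      (V0 (Function.update s 2 (s 2 * q)) F).ncard = 2 * (V0 s E).ncard) ∧
    (¬ V17 (Function.update s 2 (s 2 * q)) F ⊆ V17 s E →
      (V17 (Function.update s 2 (s 2 * q)) F).ncard = 2 * (V17 s E).ncard)

open Classical in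
/-- **RAI** (a positive proportion of the primes gives new classes for the curve and for its twist,
with the same sign). -/
def St_RAI : Prop := ∀ (X r : ℕ) (s : Fin 3 → ℕ) (E : Finset ℕ), Squarefree (∏ j, s j) →
  Odd (∏ j, s j) → ¬ 17 ∣ ∏ j, s j → E ⊆ (∏ j, s j).primeFactors →
  (136 * (∏ j, s j : ℕ) : ℝ) < (X : ℝ) ^ (1 / 3 : ℝ) →
  (V0 s E).ncard = 2 ^ r → (V17 s E).ncard = 2 ^ r →
    (∑ q ∈ Pt X, 1 / ((q : ℝ) - 1)) / 2 ^ (2 * r + 1) - Dsc X (136 * ∏ j, s j) ≤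
      ∑ q ∈ (Pt X).filter (fun q => Rs s E q), 1 / ((q : ℝ) - 1)

open Classical in
/-- **GDR** (a positive proportion of the data has groups of order `2 ^ r`). -/
def St_GDR : Prop := ∀ r : ℕ, ∃ z0 : ℕ, ∀ z : ℕ, z0 ≤ z → ∀ κ : ℝ, 0 < κ → ∃ c : ℝ, 0 < c ∧
  ∃ X0 : ℕ, ∀ X : ℕ, X0 ≤ X →
    c * Real.log X ^ 3 ≤ ∑ s ∈ Trip z ((X : ℝ) ^ κ), mu s *
      (((∏ j, s j).primeFactors.powerset.filter (fun E => Dt r s E)).card : ℝ)

/-- the hypotheses on the pair `a = s' 0`, `b = s' 1`, with `s' = (s 0 m, s 1 n, s 2 l)` -/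
structure Full (s s' : Fin 3 → ℕ) (m n l : ℕ) : Prop where
  pm : m.Prime
  pn : n.Prime
  pl : l.Prime
  e0 : s' 0 = s 0 * m
  e1 : s' 1 = s 1 * n
  e2 : s' 2 = s 2 * l
  sqf : Squarefree (∏ j, s' j)
  odd : Odd (∏ j, s' j)
  gt : ∀ p : ℕ, p.Prime → p ∣ ∏ j, s' j → 17 < p
  eq : (s' 0 : ℤ) - s' 1 = 32 * s' 2
  a8 : s' 0 % 8 = 1
  b8 : s' 1 % 8 = 1
  a17 : s' 0 % 17 = 1
  b17 : s' 1 % 17 = 15

/-- **SURV** (all classes of the data satisfy the local conditions at the three large primes). -/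
def St_SURV : Prop := ∀ (s s' : Fin 3 → ℕ) (m n l : ℕ), Full s s' m n l →
    V0 s (sgF (s' 0) (s' 1) (∏ j, s j)) ⊆ V0 s' (sgF (s' 0) (s' 1) (∏ j, s' j)) ∧
    V17 s (sgF (s' 0) (s' 1) (∏ j, s j)) ⊆ V17 s' (sgF (s' 0) (s' 1) (∏ j, s' j))

/-- **TOR** (the classes of the 2-torsion points are independent of the classes of the data). -/
def St_TOR : Prop := ∀ (s s' : Fin 3 → ℕ) (m n l : ℕ), Full s s' m n l → ∀ E : Finset ℕ,
    (V0 s E ⊆ V0 s' (sgF (s' 0) (s' 1) (∏ j, s' j)) →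
      4 * (V0 s E).ncard ≤ (V0 s' (sgF (s' 0) (s' 1) (∏ j, s' j))).ncard) ∧
    (V17 s E ⊆ V17 s' (sgF (s' 0) (s' 1) (∏ j, s' j)) →
      4 * (V17 s E).ncard ≤ (V17 s' (sgF (s' 0) (s' 1) (∏ j, s' j))).ncard)

/-- The pairs `(a, b)` of size `X` such that the curve or its twist by 17 has a 2-Selmer group of
order `N`. -/
def GoodN (N X : ℕ) (t : ℕ × ℕ) : Prop :=
  X < 2 * t.1 ∧ t.1 ≤ X ∧ X < 8 * t.2 ∧ 4 * t.2 ≤ X ∧ t.1 % 3 = 1 ∧ t.2 % 3 = 2 ∧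
    t.1 % 17 = 1 ∧ t.2 % 17 = 15 ∧ Nat.Coprime t.1 t.2 ∧
    (((Sel (t.1 : ℤ) (t.2 : ℤ)).Finite ∧ (Sel (t.1 : ℤ) (t.2 : ℤ)).ncard = N) ∨
      ((Sel (17 * (t.1 : ℤ)) (17 * (t.2 : ℤ))).Finite ∧
        (Sel (17 * (t.1 : ℤ)) (17 * (t.2 : ℤ))).ncard = N))

open Classical in
/-- **CVN** (from pairs to curves). -/
def St_CVN : Prop := ∀ N : ℕ, (∃ c : ℝ, 0 < c ∧ ∃ X0 : ℕ, ∀ X : ℕ, X0 ≤ X →
    c * (X : ℝ) ^ 2 ≤ (((Icc 1 X ×ˢ Icc 1 X).filter (GoodN N X)).card : ℝ)) →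
  ∃ c : ℝ, 0 < c ∧ ∃ H0 : ℕ, ∀ H : ℕ, H0 ≤ H →
    c * ((Cv 2 H).card : ℝ) ≤ (((Cv 2 H).filter (fun k : ℤ × ℤ => (SelR k.1 k.2).Finite ∧
      (SelR k.1 k.2).ncard = N)).card : ℝ)

end Pool.Agent.Y667.MT
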