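import Pool.Agent.Y667.MT.MainR

/-!
# Project MT: exact orders of the 2-Selmer groups
-/

set_option autoImplicit false

namespace Pool.Agent.Y667.MT

open Finset Filter Pool.Agent.W262.RK Pool.Agent.W307.RT Pool.Agent.W307.RS Pool.Agent.W307.SE
  Pool.Agent.W307.FK Pool.Agent.Y667.RP Pool.Agent.Y667.RZ

lemma par_mid {r k k' : ℕ} (h : Odd (k + k')) (h1 : 2 ^ k ≤ 2 ^ (r + 3)) (h2 : 2 ^ k' ≤ 2 ^ (r + 3))
    (h3 : 2 ^ (r + 1) ≤ 2 ^ k) (h4 : 2 ^ (r + 1) ≤ 2 ^ k') :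
    2 ^ k = 2 ^ (r + 2) ∨ 2 ^ k' = 2 ^ (r + 2) := by
  have a1 : k ≤ r + 3 := (Nat.pow_le_pow_iff_right (by norm_num : 1 < 2)).1 h1
  have a2 : k' ≤ r + 3 := (Nat.pow_le_pow_iff_right (by norm_num : 1 < 2)).1 h2
  have b1 : r + 1 ≤ k := (Nat.pow_le_pow_iff_right (by norm_num : 1 < 2)).1 h3
  have b2 : r + 1 ≤ k' := (Nat.pow_le_pow_iff_right (by norm_num : 1 < 2)).1 h4
  obtain ⟨c, hc⟩ := h
  have : k = r + 2 ∨ k' = r + 2 := by omega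
  rcases this with h | h
  · exact Or.inl (by rw [h])
  · exact Or.inr (by rw [h])

lemma goodN_of {r X : ℕ} {t : ℕ × ℕ} (h : GoodR r X t) : GoodN (2 ^ (r + 2)) X t := by
  obtain ⟨h1, h2, h3, h4, h5, h6, h7, s, e0, e1, hsq, hodd, hp, heq, m0, m1, m2, m3, hσ,
    ⟨f0, c0, l0⟩, f1, c1, l1⟩ := h
  have h17 : ¬ 17 ∣ ∏ j, s j := by
    intro h
    have := hp 17 (by norm_num) h
    omega
  obtain ⟨k, k', hk, hk', hodd'⟩ := Pool.Agent.Y655.RZ.PAR Pool.Agent.Y212.RZ.LAG s hsq hodd h17 heq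
    m0 m1 m2 m3 hσ
  obtain ⟨g0, g1⟩ := Pool.Agent.Y535.RZ.SEL17 s hsq hodd h17 heq m0 m1 m2 m3
  obtain ⟨r0, r1⟩ := Pool.Agent.Y535.RZ.SURJ Pool.Agent.Y105.RZ.GOODS s hsq hodd hp heq m0 m1 m2 m3
  have E0 := Set.Subset.antisymm g0 r0
  have E1 := Set.Subset.antisymm g1 r1
  rw [hk] at c0 l0
  rw [hk'] at c1 l1
  rw [← E0] at f0 hk
  rw [← E1] at f1 hk'
  refine ⟨h1, h2, h3, h4, h5, h6, by rw [← e0]; exact m2, by rw [← e1]; exact m3, h7, ?_⟩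
  rw [← e0, ← e1]
  rcases par_mid hodd' c0 c1 l0 l1 with h | h
  · exact Or.inl ⟨f0, by rw [hk, h]⟩
  · exact Or.inr ⟨f1, by rw [hk', h]⟩

end Pool.Agent.Y667.MT
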