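import Pool.Agent.Y667.MT.Cls
import Pool.Agent.Y419.MT.Half2
import Pool.Agent.Y419.MT.Exi
import Pool.Agent.Y587.MT.GRP
import Pool.Agent.Y587.MT.TOR
import Pool.Agent.Y350.MT.RAI
import Pool.Agent.Y571.MT.GDR
import Pool.Agent.Y232.MT.Surv
import Pool.Agent.Y738.MT.CVN

/-!
# Project MT: for every `r` a positive proportion of the curves has `|Sel_2| = 2 ^ (r + 2)`
-/

set_option autoImplicit false

namespace Pool.Agent.Y667.MT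

open Finset Filter Pool.Agent.W262.RK Pool.Agent.W307.RT Pool.Agent.W307.RS Pool.Agent.W307.SE
  Pool.Agent.W307.FK Pool.Agent.Y667.RP Pool.Agent.Y667.RZ

theorem gd2 : Pool.Agent.Y667.RZ.St_GD2 :=
  Pool.Agent.Y202.RZ.GD2 Pool.Agent.Y535.RP.MS1
    (Pool.Agent.Y515.RP.BC Pool.Agent.Y515.RP.EE) KILL V0N Pool.Agent.Y448.RZ.KILL17
    Pool.Agent.Y448.RZ.V17N Pool.Agent.Y448.RZ.NG

theorem gdr : St_GDR :=
  Pool.Agent.Y571.MT.GDR gd2 (Pool.Agent.Y350.MT.RAI Pool.Agent.Y419.MT.TYPE2 Pool.Agent.Y419.MT.EXI)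
    Pool.Agent.Y587.MT.GRP (Pool.Agent.Y823.RZ.DSC Pool.Agent.Y515.RP.EE)

open Classical in
theorem mainR (r : ℕ) : ∃ c : ℝ, 0 < c ∧ ∃ X0 : ℕ, ∀ X : ℕ, X0 ≤ X →
      c * (X : ℝ) ^ 2 ≤ (((Icc 1 X ×ˢ Icc 1 X).filter (GoodR r X)).card : ℝ) :=
  MAINR Pool.Agent.Y246.RZ.SV3 Pool.Agent.Y153.RP.CNT
    (Pool.Agent.Y515.RP.ERR Pool.Agent.Y515.RP.EE) gdr Pool.Agent.Y448.RZ.NG
    Pool.Agent.Y448.RZ.V17N Pool.Agent.Y419.MT.HALF2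
    (Pool.Agent.Y823.RZ.DSC Pool.Agent.Y515.RP.EE) Pool.Agent.Y587.MT.GRP
    Pool.Agent.Y232.MT.SURV Pool.Agent.Y587.MT.TOR r

open Classical in
theorem mainN (r : ℕ) : ∃ c : ℝ, 0 < c ∧ ∃ X0 : ℕ, ∀ X : ℕ, X0 ≤ X →
      c * (X : ℝ) ^ 2 ≤ (((Icc 1 X ×ˢ Icc 1 X).filter (GoodN (2 ^ (r + 2)) X)).card : ℝ) := by
  obtain ⟨c, hc, X0, h⟩ := mainR r
  refine ⟨c, hc, X0, fun X hX => (h X hX).trans (Nat.cast_le.2 (card_le_card fun t ht => ?_))⟩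
  rw [mem_filter] at ht ⊢
  exact ⟨ht.1, goodN_of ht.2⟩

open Classical in
theorem curvesN (r : ℕ) : ∃ c : ℝ, 0 < c ∧ ∃ H0 : ℕ, ∀ H : ℕ, H0 ≤ H →
    c * ((Cv 2 H).card : ℝ) ≤ (((Cv 2 H).filter (fun k : ℤ × ℤ => (SelR k.1 k.2).Finite ∧
      (SelR k.1 k.2).ncard = 2 ^ (r + 2))).card : ℝ) :=
  Pool.Agent.Y738.MT.CVN _ (mainN r)

end Pool.Agent.Y667.MT
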