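import Pool.Agent.Y667.MT.N6
import Pool.Agent.Y667.RZ.N7

/-!
# Project MT, the main argument: summation over the data
-/

set_option autoImplicit false

namespace Pool.Agent.Y667.MT

open Finset Filter Pool.Agent.W262.RK Pool.Agent.W307.RT Pool.Agent.W307.RS Pool.Agent.W307.SE
  Pool.Agent.W307.FK Pool.Agent.Y667.RP Pool.Agent.Y667.RZ Pool.Agent.Y667

open Classical in
/-- the signs -/
noncomputable def GR (r : ℕ) (s : Fin 3 → ℕ) : Finset (Finset ℕ) :=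
  (∏ j, s j).primeFactors.powerset.filter (fun E => Dt r s E)

theorem card_bound {r z Q0 a0 b0 X : ℕ} (hz : 2 ≤ z) (hB : Big z X) (hM : ModZ z Q0 a0 b0)
    (T : Finset (ℕ × ℕ)) (F : (Fin 3 → ℕ) → Finset ℕ → Finset (ℕ × ℕ))
    (TT : Finset (Fin 3 → ℕ)) (hTT : TT ⊆ Trip z ((X : ℝ) ^ (1 / 2000 : ℝ)))
    (hF : ∀ s ∈ TT, ∀ E ∈ GR r s, ∀ t ∈ F s E,
      t ∈ AA X Q0 a0 b0 s E ∧ Rg X (vv s t) ∧ (s 0 * t.1, s 1 * t.2) ∈ T) :
    ∑ s ∈ TT, ∑ E ∈ GR r s, ((F s E).card : ℝ) ≤ (T.card : ℝ) := by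
  classical
  have h1 : ∑ s ∈ TT, ∑ E ∈ GR r s, ((F s E).card : ℝ) =
      (((TT.sigma (GR r)).sigma
        (fun i => F i.1 i.2)).card : ℝ) := by
    rw [card_sigma, sum_sigma]
    push_cast
    rfl
  rw [h1]
  have h2 : ((TT.sigma (GR r)).sigma
        (fun i => F i.1 i.2)).card ≤ T.card := by
    apply card_le_card_of_injOn (fun x => (x.1.1 0 * x.2.1, x.1.1 1 * x.2.2))
    · rintro ⟨⟨s, E⟩, t⟩ hx
      rw [mem_coe, mem_sigma, mem_sigma] at hx
      exact (hF s hx.1.1 E hx.1.2 t hx.2).2.2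
    · rintro ⟨⟨s, E⟩, t⟩ hx ⟨⟨s', E'⟩, t'⟩ hx' h
      rw [mem_coe, mem_sigma, mem_sigma] at hx hx'
      obtain ⟨a1, a2, -⟩ := hF s hx.1.1 E hx.1.2 t hx.2
      obtain ⟨b1, b2, -⟩ := hF s' hx'.1.1 E' hx'.1.2 t' hx'.2
      obtain ⟨d1, d2⟩ := Trip_dat (hTT hx.1.1)
      obtain ⟨d3, d4⟩ := Trip_dat (hTT hx'.1.1)
      simp only [Prod.mk.injEq] at h
      obtain ⟨e1, e2, e3⟩ := uniq hz hB hM d1 d3 d2 d4 a1 b1 a2 b2 h.1 h.2
      subst e1 e2 e3
      rfl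
  exact_mod_cast h2


open Classical in
lemma GR_card (r : ℕ) (s : Fin 3 → ℕ) : (GR r s).card ≤ 2 ^ (∏ j, s j).primeFactors.card := by
  rw [← card_powerset]
  exact card_filter_le _ _

open Classical in
theorem MAINR (hSV : St_SV3) (hCNT : St_CNT) (hERR : St_ERR) (hGDR : St_GDR) (hNG : St_NG)
    (hVN : St_V17N) (hHALF : St_HALF2) (hDSC : St_DSC) (hGRP : St_GRP) (hSU : St_SURV)
    (hTO : St_TOR) (r : ℕ) : ∃ c : ℝ, 0 < c ∧ ∃ X0 : ℕ, ∀ X : ℕ, X0 ≤ X →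
      c * (X : ℝ) ^ 2 ≤ (((Icc 1 X ×ˢ Icc 1 X).filter (GoodR r X)).card : ℝ) := by
  obtain ⟨z1, hz13, hDATA⟩ := DATAR hSV hCNT hNG hVN hHALF hGRP hSU hTO r
  obtain ⟨z0, hGD⟩ := hGDR r
  obtain ⟨z, hzdef⟩ : ∃ z : ℕ, z = max z1 z0 := ⟨_, rfl⟩
  have hzz1 : z1 ≤ z := hzdef ▸ le_max_left _ _
  have hzz0 : z0 ≤ z := hzdef ▸ le_max_right _ _
  have hz2 : 2 ≤ z := by omega
  obtain ⟨c, hc, X1, hD⟩ := hDATA z hzz1
  obtain ⟨cG, hcG, X2, hG⟩ := hGD z hzz0 (1 / 2000) (by norm_num)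
  obtain ⟨Q0, a0, b0, hM⟩ := RZ.exists_mod z (by omega)
  obtain ⟨X3, hE⟩ := hERR Q0 1 3 hM.ne
  obtain ⟨X4, -, hP⟩ := pMN
  have hφ : (0 : ℝ) < Q0.totient := by
    exact_mod_cast Nat.totient_pos.2 (Nat.pos_of_ne_zero hM.ne)
  obtain ⟨c1, hc1⟩ : ∃ c1 : ℝ, c1 = c * (cG / 2 / (256 * (Q0.totient : ℝ) ^ 2)) := ⟨_, rfl⟩
  have hc1pos : 0 < c1 := by rw [hc1]; positivity
  have v1 := (pow_tendsto (e := 1 / 4) (by norm_num)).eventually_ge_atTop (32 / c1 + 8 : ℝ)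
  have v2 := log_tendsto.eventually_ge_atTop (16 / c1 + 1 + 2000 / cG : ℝ)
  obtain ⟨X6, hR6⟩ := dsc_rare hDSC z
  obtain ⟨X5, hX5⟩ := (v1.and v2).exists_forall_of_atTop
  refine ⟨c1 / 2, by positivity, max (max (max (max X1 X2) (max X3 X4)) X5) X6, fun X hX' => ?_⟩
  have hX : max (max (max X1 X2) (max X3 X4)) X5 ≤ X := (le_max_left _ _).trans hX'
  have hR := hR6 X ((le_max_right _ _).trans hX')
  have hX1 : X1 ≤ X := (((le_max_left _ _).trans (le_max_left _ _)).trans (le_max_left _ _)).trans hX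
  have hX2 : X2 ≤ X := (((le_max_right _ _).trans (le_max_left _ _)).trans (le_max_left _ _)).trans hX
  have hX3 : X3 ≤ X := (((le_max_left _ _).trans (le_max_right _ _)).trans (le_max_left _ _)).trans hX
  have hX4 : X4 ≤ X := (((le_max_right _ _).trans (le_max_right _ _)).trans (le_max_left _ _)).trans hX
  obtain ⟨w1, w2⟩ := hX5 X ((le_max_right _ _).trans hX)
  obtain ⟨hB, hDX⟩ := hD X hX1
  have hG' := hG X hX2
  have hE' := hE X hX3
  have hX2n := hB.two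
  have hXr : (0 : ℝ) < X := by positivity
  have hL : 0 < Real.log X := Real.log_pos (by exact_mod_cast (by omega : 1 < X))
  set L := Real.log X with hLdef
  set TR := Trip z ((X : ℝ) ^ (1 / 2000 : ℝ)) with hTR
  set TT := TR.filter (fun s => Dsc X (136 * ∏ j, s j) ≤ 1 / 1000) with hTT
  have hTsub : TT ⊆ TR := filter_subset _ _
  set G : (Fin 3 → ℕ) → Finset ℕ → Finset (ℕ × ℕ) := fun s E =>
    (AA X Q0 a0 b0 s E).filter (fun t => Rg3 X (vv s t) ∧ GoodR r X (s 0 * t.1, s 1 * t.2)) with hGdef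
  set Ex : (Fin 3 → ℕ) → Finset ℕ → Finset (ℕ × ℕ) := fun s E =>
    (AA X Q0 a0 b0 s E).filter (fun t => Rg3 X (vv s t) ∧ Exc X s t) with hExdef
  -- the inequality for one datum
  have hdat : ∀ s ∈ TT, ∀ E ∈ GR r s, c * (mA X Q0 s / L) ≤ ((G s E).card : ℝ) +
      ((Ex s E).card : ℝ) + 2 * (L * Er X Q0 z s) := by
    intro s hs' E hE
    have hs := hTsub hs'
    obtain ⟨d1, d2⟩ := Trip_dat hs
    unfold GR at hE
    rw [mem_filter, mem_powerset] at hE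
    exact hDX Q0 a0 b0 s E hM d1 d2 hE.1 hE.2 (mem_filter.1 hs').2
  have hsum : ∑ s ∈ TT, ∑ E ∈ GR r s, c * (mA X Q0 s / L) ≤ ∑ s ∈ TT, ∑ E ∈ GR r s,
      (((G s E).card : ℝ) + ((Ex s E).card : ℝ) + 2 * (L * Er X Q0 z s)) :=
    sum_le_sum fun s hs => sum_le_sum fun E hE => hdat s hs E hE
  -- the lower bound of the left side
  have hlow : c1 * (X : ℝ) ^ 2 ≤ ∑ s ∈ TT, ∑ E ∈ GR r s, c * (mA X Q0 s / L) := by
    have h1 : ∀ s ∈ TT, c * ((X : ℝ) ^ 2 / (256 * (Q0.totient : ℝ) ^ 2) / L ^ 3) *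
        (mu s * ((GR r s).card : ℝ)) ≤ ∑ E ∈ GR r s, c * (mA X Q0 s / L) := by
      intro s hs
      obtain ⟨d1, d2⟩ := Trip_dat (hTsub hs)
      rw [sum_const, nsmul_eq_mul]
      have h2 := hP X hX4 (s 0) (s 1) (Nat.pos_of_ne_zero (d1.ne 0))
        (Nat.pos_of_ne_zero (d1.ne 1)) ((d2 0).trans hB.half) ((d2 1).trans hB.half)
      have h3 := mA_low hB hM.ne d1 h2.1 h2.2
      have h4 : (0 : ℝ) ≤ ((GR r s).card : ℝ) := Nat.cast_nonneg _
      calc c * ((X : ℝ) ^ 2 / (256 * (Q0.totient : ℝ) ^ 2) / L ^ 3) * (mu s * ((GR r s).card : ℝ)) =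
            ((GR r s).card : ℝ) * (c * (((X : ℝ) ^ 2 / (256 * (Q0.totient : ℝ) ^ 2) / L ^ 2 *
              mu s) / L)) := by
            field_simp
        _ ≤ ((GR r s).card : ℝ) * (c * (mA X Q0 s / L)) := by gcongr
    have h5 := sum_le_sum h1
    rw [← mul_sum] at h5
    refine le_trans ?_ h5
    have h6 : cG / 2 * L ^ 3 ≤ ∑ s ∈ TT, mu s * ((GR r s).card : ℝ) := by
      have hG'' : cG * L ^ 3 ≤ ∑ s ∈ TR, mu s * ((GR r s).card : ℝ) := hG'
      have hbad : ∑ s ∈ TR.filter (fun s => ¬ Dsc X (136 * ∏ j, s j) ≤ 1 / 1000),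
          mu s * ((GR r s).card : ℝ) ≤ 1000 := by
        have k1 : ∀ s ∈ TR.filter (fun s => ¬ Dsc X (136 * ∏ j, s j) ≤ 1 / 1000),
            mu s * ((GR r s).card : ℝ) ≤
              1000 * ((∏ j, 1 / (s j : ℝ)) * Dsc X (136 * ∏ j, s j)) := by
          intro s hs
          rw [mem_filter, not_le] at hs
          have k2 : ((GR r s).card : ℝ) ≤ 2 ^ (∏ j, s j).primeFactors.card := by
            exact_mod_cast GR_card r s
          have k3 : 0 ≤ ∏ j, 1 / (s j : ℝ) := prod_nonneg fun j _ => by positivity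
          have k4 : mu s * ((GR r s).card : ℝ) ≤ ∏ j, 1 / (s j : ℝ) := by
            unfold mu
            calc (1 / 2 : ℝ) ^ (∏ j, s j).primeFactors.card * (∏ j, 1 / (s j : ℝ)) *
                  ((GR r s).card : ℝ) ≤ (1 / 2 : ℝ) ^ (∏ j, s j).primeFactors.card *
                  (∏ j, 1 / (s j : ℝ)) * 2 ^ (∏ j, s j).primeFactors.card := by gcongr
              _ = ((1 / 2 : ℝ) * 2) ^ (∏ j, s j).primeFactors.card * (∏ j, 1 / (s j : ℝ)) := by
                  rw [mul_pow]; ring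
              _ = _ := by norm_num
          have k5 : 1 ≤ 1000 * Dsc X (136 * ∏ j, s j) := by linarith
          calc mu s * ((GR r s).card : ℝ) ≤ ∏ j, 1 / (s j : ℝ) := k4
            _ ≤ (∏ j, 1 / (s j : ℝ)) * (1000 * Dsc X (136 * ∏ j, s j)) :=
                le_mul_of_one_le_right k3 k5
            _ = _ := by ring
        refine (sum_le_sum k1).trans ?_
        rw [← mul_sum]
        have k6 : ∑ s ∈ TR.filter (fun s => ¬ Dsc X (136 * ∏ j, s j) ≤ 1 / 1000),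
            (∏ j, 1 / (s j : ℝ)) * Dsc X (136 * ∏ j, s j) ≤
            ∑ s ∈ TR, (∏ j, 1 / (s j : ℝ)) * Dsc X (136 * ∏ j, s j) :=
          sum_le_sum_of_subset_of_nonneg (filter_subset _ _) fun s _ _ =>
            mul_nonneg (prod_nonneg fun j _ => by positivity) (Dsc_nonneg _ _)
        linarith
      have hsplit0 := sum_filter_add_sum_filter_not TR
        (fun s => Dsc X (136 * ∏ j, s j) ≤ 1 / 1000) (fun s => mu s * ((GR r s).card : ℝ))
      have k7 : 1000 ≤ cG / 2 * L ^ 3 := by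
        have k8 : 2000 / cG ≤ L := by
          have : 0 < 16 / c1 := by positivity
          linarith
        have k9 : 1 ≤ L := by
          have : 0 < 16 / c1 := by positivity
          have : 0 < 2000 / cG := by positivity
          linarith
        rw [div_le_iff₀ hcG] at k8
        have k10 : L ≤ L ^ 3 := le_self_pow₀ k9 (by norm_num)
        nlinarith
      linarith
    have h7 : 0 ≤ c * ((X : ℝ) ^ 2 / (256 * (Q0.totient : ℝ) ^ 2) / L ^ 3) := by positivity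
    refine le_trans (le_of_eq ?_) (mul_le_mul_of_nonneg_left h6 h7)
    rw [hc1]
    field_simp
  -- the upper bounds
  have hGs : ∑ s ∈ TT, ∑ E ∈ GR r s, ((G s E).card : ℝ) ≤
      (((Icc 1 X ×ˢ Icc 1 X).filter (GoodR r X)).card : ℝ) := by
    refine MT.card_bound hz2 hB hM _ G TT hTsub ?_
    intro s hs E hE t ht
    obtain ⟨h1, h2, h3⟩ := mem_filter.1 ht
    refine ⟨h1, h2.rg (by omega), ?_⟩
    rw [mem_filter, mem_product, mem_Icc, mem_Icc]
    have h4 := h3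
    obtain ⟨g1, g2, g3, g4, -⟩ := h4
    simp only at g1 g2 g3 g4
    exact ⟨⟨⟨by omega, g2⟩, ⟨by omega, by omega⟩⟩, h3⟩
  have hExs : ∑ s ∈ TT, ∑ E ∈ GR r s, ((Ex s E).card : ℝ) ≤
      (((Icc 1 X ×ˢ Icc 1 X).filter (ExP X)).card : ℝ) := by
    refine MT.card_bound hz2 hB hM _ Ex TT hTsub ?_
    intro s hs E hE t ht
    obtain ⟨h1, h2, h3⟩ := mem_filter.1 ht
    obtain ⟨d1, d2⟩ := Trip_dat (hTsub hs)
    refine ⟨h1, h2.rg (by omega), ?_⟩
    have heq := RZ.AA_eq hz2 d1 hM h1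
    have hlt := AA_lt h1
    obtain ⟨b1, b2, b3⟩ := AA_big hB d2 h1
    have h4 := h1
    unfold AA at h4
    rw [mem_filter] at h4
    obtain ⟨-, hm, hn, g1, g2, g3, g4, -⟩ := h4
    rw [mem_filter, mem_product, mem_Icc, mem_Icc]
    refine ⟨⟨⟨by simp only; omega, g2⟩, ⟨by simp only; omega, by simp only; omega⟩⟩, hlt, ?_⟩
    rcases h3 with h3 | ⟨q, hq, hqX, hqv⟩
    · refine ⟨t.1, hm, ?_, Or.inl ⟨dvd_mul_left _ _, ?_⟩⟩
      · by_contra hcon
        push Not at hcon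
        have h1X : (1 : ℝ) ≤ X := by exact_mod_cast (by omega : 1 ≤ X)
        have h5 : (X : ℝ) ^ (1 / 4 : ℝ) ≤ (X : ℝ) ^ (1 / 2 : ℝ) :=
          Real.rpow_le_rpow_of_exponent_le h1X (by norm_num)
        have := (b3 t.1 (by linarith)).1
        omega
      · show t.1 ∣ s 1 * t.2
        rw [← h3]
        exact dvd_mul_left _ _
    · refine ⟨q, hq, hqX, Or.inr ?_⟩
      show q ^ 2 ∣ s 0 * t.1 - s 1 * t.2
      rw [heq]
      exact (hqv.mul_left _).mul_left _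
  have hErn : ∀ s, 0 ≤ Er X Q0 z s := by
    intro s
    unfold Er
    exact add_nonneg (sum_nonneg fun _ _ => er_nonneg _ _ _ _)
      (sum_nonneg fun _ _ => sum_nonneg fun _ _ => er_nonneg _ _ _ _)
  have hErs : ∑ s ∈ TT, ∑ E ∈ GR r s, 2 * (L * Er X Q0 z s) ≤ 2 * (L * (2 * SE X Q0)) := by
    have h1 : ∀ s ∈ TT, ∑ E ∈ GR r s, 2 * (L * Er X Q0 z s) ≤
        2 * (L * ((2 : ℝ) ^ (∏ j, s j).primeFactors.card * Er X Q0 z s)) := by
      intro s _
      rw [sum_const, nsmul_eq_mul]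
      have h2 : ((GR r s).card : ℝ) ≤ (2 : ℝ) ^ (∏ j, s j).primeFactors.card := by
        exact_mod_cast GR_card r s
      have h3 := mul_le_mul_of_nonneg_right h2 (mul_nonneg hL.le (hErn s))
      calc ((GR r s).card : ℝ) * (2 * (L * Er X Q0 z s)) =
            2 * (((GR r s).card : ℝ) * (L * Er X Q0 z s)) := by ring
        _ ≤ 2 * ((2 : ℝ) ^ (∏ j, s j).primeFactors.card * (L * Er X Q0 z s)) := by linarith
        _ = 2 * (L * ((2 : ℝ) ^ (∏ j, s j).primeFactors.card * Er X Q0 z s)) := by ring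
    refine (sum_le_sum h1).trans ?_
    rw [← mul_sum, ← mul_sum]
    apply mul_le_mul_of_nonneg_left _ (by norm_num)
    apply mul_le_mul_of_nonneg_left _ hL.le
    have h0 : ∑ s ∈ TT, (2 : ℝ) ^ (∏ j, s j).primeFactors.card * Er X Q0 z s ≤
        ∑ s ∈ TR, (2 : ℝ) ^ (∏ j, s j).primeFactors.card * Er X Q0 z s :=
      sum_le_sum_of_subset_of_nonneg hTsub fun s _ _ => mul_nonneg (by positivity) (hErn s)
    refine h0.trans ?_
    have h4 : ∑ s ∈ TR, (2 : ℝ) ^ (∏ j, s j).primeFactors.card * Er X Q0 z s =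
        ∑ s ∈ TR, (2 : ℝ) ^ (∏ j, s j).primeFactors.card *
          ∑ q ∈ Lev z ((X : ℝ) ^ (99 / 100 : ℝ)), er X Q0 s q +
        ∑ s ∈ TR, (2 : ℝ) ^ (∏ j, s j).primeFactors.card *
          ∑ q1 ∈ Pr X, ∑ q ∈ Lev z ((X : ℝ) ^ (49 / 100 : ℝ)), er X Q0 (up s q1) q := by
      rw [← sum_add_distrib]
      apply sum_congr rfl
      intro s _
      unfold Er
      rw [mul_add]
    rw [h4]
    have h5 := errA (z := z) (Q0 := Q0) hB
    have h6 := errB (z := z) (Q0 := Q0) hB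
    linarith
  have hSE : SE X Q0 ≤ (X : ℝ) ^ 2 / L ^ 3 := hE'
  have hExb := ExP_card (X := X) (by
    have : 0 < 32 / c1 := by positivity
    linarith)
  -- the final comparison
  have f1 : 8 * (X : ℝ) ^ 2 / (X : ℝ) ^ (1 / 4 : ℝ) ≤ c1 / 4 * (X : ℝ) ^ 2 := by
    have hq : 0 < (X : ℝ) ^ (1 / 4 : ℝ) := by positivity
    rw [div_le_iff₀ hq]
    have h1 : 32 / c1 ≤ (X : ℝ) ^ (1 / 4 : ℝ) := by linarith
    rw [div_le_iff₀ hc1pos] at h1
    nlinarith [sq_nonneg (X : ℝ)]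
  have f2 : 2 * (L * (2 * ((X : ℝ) ^ 2 / L ^ 3))) ≤ c1 / 4 * (X : ℝ) ^ 2 := by
    have h1 : 2 * (L * (2 * ((X : ℝ) ^ 2 / L ^ 3))) = 4 / L ^ 2 * (X : ℝ) ^ 2 := by
      field_simp
      ring
    rw [h1]
    apply mul_le_mul_of_nonneg_right _ (by positivity)
    rw [div_le_iff₀ (by positivity)]
    have h20 : 0 < 2000 / cG := by positivity
    have h2 : 16 / c1 ≤ L := by linarith
    have h3 : 1 ≤ L := by
      have : 0 < 16 / c1 := by positivity
      linarith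
    rw [div_le_iff₀ hc1pos] at h2
    nlinarith
  have hsplit : ∑ s ∈ TT, ∑ E ∈ GR r s,
      (((G s E).card : ℝ) + ((Ex s E).card : ℝ) + 2 * (L * Er X Q0 z s)) =
      ∑ s ∈ TT, ∑ E ∈ GR r s, ((G s E).card : ℝ) + ∑ s ∈ TT, ∑ E ∈ GR r s, ((Ex s E).card : ℝ) +
        ∑ s ∈ TT, ∑ E ∈ GR r s, 2 * (L * Er X Q0 z s) := by
    simp only [sum_add_distrib]
  rw [hsplit] at hsum
  have h9 : 2 * (L * (2 * SE X Q0)) ≤ 2 * (L * (2 * ((X : ℝ) ^ 2 / L ^ 3))) := by gcongr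
  linarith

end Pool.Agent.Y667.MT
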