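import Pool.Agent.Y667.MT.Stm

/-!
# Project MT, the main argument: the good pairs
-/

set_option autoImplicit false

namespace Pool.Agent.Y667.MT

open Finset Pool.Agent.W262.RK Pool.Agent.W307.RT Pool.Agent.W307.RS Pool.Agent.W307.SE
  Pool.Agent.W307.FK Pool.Agent.Y667.RP Pool.Agent.Y667.RZ

/-- the data with groups of order between `2 ^ (r - 1)` and `2 ^ r` -/
def Gr (r : ℕ) (s : Fin 3 → ℕ) (E : Finset ℕ) : Prop :=
  ((V0 s E).ncard ≤ 2 ^ r ∧ 2 ^ r ≤ 2 * (V0 s E).ncard) ∧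
  ((V17 s E).ncard ≤ 2 ^ r ∧ 2 ^ r ≤ 2 * (V17 s E).ncard) ∧
    ∀ σ : ℤ, σ = -1 ∨ σ = 2 ∨ σ = -2 → ∃ p : ℕ, p.Prime ∧ p ∣ ∏ j, s j ∧ jacobiSym σ p = -1

lemma Dt.gr {r : ℕ} {s : Fin 3 → ℕ} {E : Finset ℕ} (h : Dt r s E) : Gr r s E := by
  obtain ⟨h1, h2, h3⟩ := h
  exact ⟨⟨h1.le, by rw [h1]; omega⟩, ⟨h2.le, by rw [h2]; omega⟩, h3⟩

/-- The pairs `(a, b)` of size `X` for which the groups `V0`, `V17` have between `2 ^ (r + 1)` and
`2 ^ (r + 3)` elements. -/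
def GoodR (r X : ℕ) (t : ℕ × ℕ) : Prop :=
  X < 2 * t.1 ∧ t.1 ≤ X ∧ X < 8 * t.2 ∧ 4 * t.2 ≤ X ∧ t.1 % 3 = 1 ∧ t.2 % 3 = 2 ∧
    Nat.Coprime t.1 t.2 ∧ ∃ s : Fin 3 → ℕ, s 0 = t.1 ∧ s 1 = t.2 ∧ Squarefree (∏ j, s j) ∧
    Odd (∏ j, s j) ∧ (∀ p : ℕ, p.Prime → p ∣ ∏ j, s j → 17 < p) ∧
    (s 0 : ℤ) - s 1 = 32 * s 2 ∧ s 0 % 8 = 1 ∧ s 1 % 8 = 1 ∧ s 0 % 17 = 1 ∧ s 1 % 17 = 15 ∧
    (∀ σ : ℤ, σ = -1 ∨ σ = 2 ∨ σ = -2 →
      ∃ p : ℕ, p.Prime ∧ p ∣ ∏ j, s j ∧ jacobiSym σ p = -1) ∧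
    ((V0 s (sgF (s 0) (s 1) (∏ j, s j))).Finite ∧
      (V0 s (sgF (s 0) (s 1) (∏ j, s j))).ncard ≤ 2 ^ (r + 3) ∧
      2 ^ (r + 1) ≤ (V0 s (sgF (s 0) (s 1) (∏ j, s j))).ncard) ∧
    (V17 s (sgF (s 0) (s 1) (∏ j, s j))).Finite ∧
      (V17 s (sgF (s 0) (s 1) (∏ j, s j))).ncard ≤ 2 ^ (r + 3) ∧
      2 ^ (r + 1) ≤ (V17 s (sgF (s 0) (s 1) (∏ j, s j))).ncard

/-- three more primes -/
lemma three (hNG : St_NG) {z : ℕ} {s : Fin 3 → ℕ} (hz : 17 ≤ z) (hD : Dat z s) {m n l : ℕ}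
    (a b : ℤ) (hm : m.Prime) (hn : n.Prime) (hl : l.Prime) (hmn : m ≠ n) (hml : m ≠ l) (hnl : n ≠ l)
    (hms : ¬ m ∣ ∏ j, s j) (hns : ¬ n ∣ ∏ j, s j) (hls : ¬ l ∣ ∏ j, s j) (hmz : z < m)
    (hnz : z < n) (hlz : z < l) :
    ∃ s' : Fin 3 → ℕ, s' 0 = s 0 * m ∧ s' 1 = s 1 * n ∧ s' 2 = s 2 * l ∧
      ∏ j, s' j = (∏ j, s j) * m * n * l ∧ Dat z s' ∧
      (V0 s' (sgF a b (∏ j, s' j))).ncard ≤ 8 * (V0 s (sgF a b (∏ j, s j))).ncard ∧
      (V17 s' (sgF a b (∏ j, s' j))).ncard ≤ 8 * (V17 s (sgF a b (∏ j, s j))).ncard := by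
  have key : ∀ (s : Fin 3 → ℕ) (j : Fin 3) (p : ℕ), Dat z s → p.Prime → z < p → ¬ p ∣ ∏ j, s j →
      Dat z (Function.update s j (s j * p)) ∧
      (V0 (Function.update s j (s j * p))
        (sgF a b (∏ i, Function.update s j (s j * p) i))).ncard ≤
          2 * (V0 s (sgF a b (∏ j, s j))).ncard ∧
      (V17 (Function.update s j (s j * p))
        (sgF a b (∏ i, Function.update s j (s j * p) i))).ncard ≤
          2 * (V17 s (sgF a b (∏ j, s j))).ncard := by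
    intro s j p hD hp hzp hps
    have h17 : ¬ 17 ∣ ∏ j, s j := by
      intro h
      have := hD.gt 17 (by norm_num) h
      omega
    have h1 := (hNG s (sgF a b (∏ j, s j)) p j hD.sqf (hD.odd (by omega)) h17 (sgF_sub _ _ _) hp
      (by omega) (by omega) hps).2.2
    refine ⟨⟨?_, ?_⟩, ?_⟩
    · rw [upd_prod, Nat.squarefree_mul_iff]
      exact ⟨((Nat.Prime.coprime_iff_not_dvd hp).2 hps).symm, hD.sqf, hp.squarefree⟩
    · intro q hq h
      rw [upd_prod] at h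
      rcases (hq.dvd_mul).1 h with h | h
      · exact hD.gt q hq h
      · rw [(Nat.prime_dvd_prime_iff_eq hq hp).1 h]
        exact hzp
    · rw [upd_prod]
      exact h1 _ (sgF_up a b _ p hD.sqf.ne_zero hp)
  obtain ⟨d1, v1, w1⟩ := key s 0 m hD hm hmz hms
  obtain ⟨s1, hs1⟩ : ∃ s1, s1 = Function.update s 0 (s 0 * m) := ⟨_, rfl⟩
  rw [← hs1] at d1 v1 w1
  have p1 : ∏ j, s1 j = (∏ j, s j) * m := by rw [hs1]; exact upd_prod s 0 m
  have hn1 : ¬ n ∣ ∏ j, s1 j := by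
    rw [p1]
    intro h
    rcases (hn.dvd_mul).1 h with h | h
    · exact hns h
    · exact hmn ((Nat.prime_dvd_prime_iff_eq hn hm).1 h).symm
  obtain ⟨d2, v2, w2⟩ := key s1 1 n d1 hn hnz hn1
  obtain ⟨s2, hs2⟩ : ∃ s2, s2 = Function.update s1 1 (s1 1 * n) := ⟨_, rfl⟩
  rw [← hs2] at d2 v2 w2
  have p2 : ∏ j, s2 j = (∏ j, s j) * m * n := by rw [hs2, upd_prod s1 1 n, p1]
  have hl2 : ¬ l ∣ ∏ j, s2 j := by
    rw [p2]
    intro h
    rcases (hl.dvd_mul).1 h with h | h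
    · rcases (hl.dvd_mul).1 h with h | h
      · exact hls h
      · exact hml ((Nat.prime_dvd_prime_iff_eq hl hm).1 h).symm
    · exact hnl ((Nat.prime_dvd_prime_iff_eq hl hn).1 h).symm
  obtain ⟨d3, v3, w3⟩ := key s2 2 l d2 hl hlz hl2
  obtain ⟨s3, hs3⟩ : ∃ s3, s3 = Function.update s2 2 (s2 2 * l) := ⟨_, rfl⟩
  rw [← hs3] at d3 v3 w3
  have p3 : ∏ j, s3 j = (∏ j, s j) * m * n * l := by rw [hs3, upd_prod s2 2 l, p2]
  refine ⟨s3, ?_, ?_, ?_, p3, d3, by omega, by omega⟩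
  · rw [hs3, Function.update_of_ne (by decide), hs2, Function.update_of_ne (by decide), hs1,
      Function.update_self]
  · rw [hs3, Function.update_of_ne (by decide), hs2, Function.update_self, hs1,
      Function.update_of_ne (by decide)]
  · rw [hs3, Function.update_self, hs2, Function.update_of_ne (by decide), hs1,
      Function.update_of_ne (by decide)]

/-- the conditions for a good pair -/
lemma goodR_of (hNG : St_NG) (hVN : St_V17N) (hSU : St_SURV) (hTO : St_TOR) {r : ℕ} {z Q0 a0 b0 X : ℕ} {s : Fin 3 → ℕ} {E : Finset ℕ}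
    {t : ℕ × ℕ} (hM : ModZ z Q0 a0 b0) (hD : Dat z s) (ht : t ∈ AA X Q0 a0 b0 s E)
    (hl : (vv s t).Prime) (hls : ¬ vv s t ∣ ∏ j, s j) (hne : t.1 ≠ t.2)
    (h1 : ¬ t.1 ∣ ∏ j, s j) (h2 : ¬ t.2 ∣ ∏ j, s j) (h3 : z < t.1) (h4 : z < t.2) (hG : Gr r s E) :
    GoodR r X (s 0 * t.1, s 1 * t.2) := by
  have hz17 := hM.z17
  have hz2 : 2 ≤ z := by omega
  have heq := AA_eq hz2 hD hM ht
  have hlt := AA_lt ht
  have hmod := AA_mod64 hM ht
  have hlz : z < vv s t := by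
    by_contra hcon
    push Not at hcon
    exact AA_small hz2 hD hM ht hl hcon dvd_rfl
  have hmem := ht
  unfold AA at hmem
  rw [mem_filter] at hmem
  obtain ⟨-, hm, hn, k1, k2, k3, k4, k5, k6, -, k8⟩ := hmem
  have he' : s 0 * t.1 = s 1 * t.2 + 32 * (s 2 * vv s t) := by omega
  have hml : t.1 ≠ vv s t := by
    intro h
    have h5 : t.1 ∣ s 1 * t.2 := by
      have h6 : t.1 ∣ s 0 * t.1 := dvd_mul_left _ _
      rw [he'] at h6
      refine (Nat.dvd_add_left (dvd_mul_of_dvd_right ?_ _)).1 h6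
      rw [← h]
      exact dvd_mul_left _ _
    rcases (hm.dvd_mul).1 h5 with h6 | h6
    · exact h1 (h6.trans (Dat.dvd 1))
    · exact hne ((Nat.prime_dvd_prime_iff_eq hm hn).1 h6)
  have hnl : t.2 ≠ vv s t := by
    intro h
    have h5 : t.2 ∣ s 0 * t.1 := by
      rw [he', ← h]
      exact dvd_add (dvd_mul_left _ _) (dvd_mul_of_dvd_right (dvd_mul_left _ _) _)
    rcases (hn.dvd_mul).1 h5 with h6 | h6
    · exact h2 (h6.trans (Dat.dvd 0))
    · exact hne ((Nat.prime_dvd_prime_iff_eq hn hm).1 h6).symm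
  have hG' : Gr r s (sgF ((s 0 * t.1 : ℕ) : ℤ) ((s 1 * t.2 : ℕ) : ℤ) (∏ j, s j)) := by
    rw [k8]; exact hG
  obtain ⟨s', e0, e1, e2, e3, d', c1, c2⟩ := three hNG hz17 hD ((s 0 * t.1 : ℕ) : ℤ)
    ((s 1 * t.2 : ℕ) : ℤ) hm hn hl hne hml hnl h1 h2 hls h3 h4 hlz
  have hQ3 : 3 ∣ Q0 := hM.dvd 3 Nat.prime_three (by omega)
  have hQ17 : 17 ∣ Q0 := hM.dvd 17 (by norm_num) hz17
  have n17 : ¬ 17 ∣ ∏ j, s' j := by
    intro h
    have := d'.gt 17 (by norm_num) h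
    omega
  have hF : Full s s' t.1 t.2 (vv s t) := by
    refine ⟨hm, hn, hl, e0, e1, e2, d'.sqf, d'.odd hz2, ?_, ?_, ?_, ?_, ?_, ?_⟩
    · intro p hp h
      have := d'.gt p hp h
      omega
    · rw [e0, e1, e2, he']
      push_cast
      ring
    · rw [e0]; omega
    · rw [e1]; omega
    · have h5 : s 0 * t.1 ≡ a0 [MOD 17] := k5.of_dvd hQ17
      have h6 := hM.ap 17 (by norm_num) (by norm_num) hz17
      rw [Nat.ModEq] at h5
      rw [e0]
      omega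
    · have h5 : s 1 * t.2 ≡ b0 [MOD 17] := k6.of_dvd hQ17
      have h6 := hM.b17
      rw [Nat.ModEq] at h5
      rw [e1]
      omega
  have hs := hSU s s' _ _ _ hF
  have ht1 := (hTO s s' _ _ _ hF _).1 hs.1
  have ht2 := (hTO s s' _ _ _ hF _).2 hs.2
  rw [e0, e1] at ht1 ht2
  obtain ⟨g1, g2, g3⟩ := hG'
  have p8 : (2 : ℕ) ^ (r + 3) = 8 * 2 ^ r := by ring
  have p2 : (2 : ℕ) ^ (r + 1) = 2 * 2 ^ r := by ring
  refine ⟨k1, k2, k3, k4, ?_, ?_, ?_, s', e0, e1, d'.sqf, d'.odd hz2, ?_, ?_, ?_, ?_, ?_, ?_, ?_,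
    ⟨?_, ?_, ?_⟩, ?_, ?_, ?_⟩
  · have h5 : s 0 * t.1 ≡ a0 [MOD 3] := k5.of_dvd hQ3
    have h6 := hM.ap 3 Nat.prime_three le_rfl (by omega)
    rw [Nat.ModEq] at h5
    show (s 0 * t.1) % 3 = 1
    omega
  · have h5 : s 1 * t.2 ≡ b0 [MOD 3] := k6.of_dvd hQ3
    have h6 := hM.bp 3 Nat.prime_three le_rfl (by omega) (by norm_num)
    rw [Nat.ModEq] at h5
    show (s 1 * t.2) % 3 = 2
    omega
  · show Nat.Coprime (s 0 * t.1) (s 1 * t.2)
    have h5 : (s' 0).Coprime (s' 1) := d'.cop.1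
    rw [e0, e1] at h5
    exact h5
  · intro p hp h
    have := d'.gt p hp h
    omega
  · rw [e0, e1, e2, he']
    push_cast
    ring
  · rw [e0]; omega
  · rw [e1]; omega
  · have h5 : s 0 * t.1 ≡ a0 [MOD 17] := k5.of_dvd hQ17
    have h6 := hM.ap 17 (by norm_num) (by norm_num) hz17
    rw [Nat.ModEq] at h5
    rw [e0]
    omega
  · have h5 : s 1 * t.2 ≡ b0 [MOD 17] := k6.of_dvd hQ17
    have h6 := hM.b17
    rw [Nat.ModEq] at h5
    rw [e1]
    omega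
  · intro σ hσ
    obtain ⟨p, hp, hps, hpj⟩ := g3 σ hσ
    refine ⟨p, hp, ?_, hpj⟩
    rw [e3]
    exact ((hps.mul_right _).mul_right _).mul_right _
  · exact (V0N s' _ d'.sqf (d'.odd hz2)).1
  · rw [e0, e1, p8]
    exact c1.trans (Nat.mul_le_mul_left _ g1.1)
  · rw [e0, e1, p2]
    omega
  · exact (hVN s' _ d'.sqf (d'.odd hz2) n17).1
  · rw [e0, e1, p8]
    exact c2.trans (Nat.mul_le_mul_left _ g2.1)
  · rw [e0, e1, p2]
    omega

section cls

variable {z Q0 a0 b0 X : ℕ} {s : Fin 3 → ℕ} {E : Finset ℕ} {t : ℕ × ℕ}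

open Classical in
/-- the bad signs at `q` -/
noncomputable def BR (s : Fin 3 → ℕ) (E : Finset ℕ) (q : ℕ) : Finset (Finset ℕ) :=
  ({E, insert q E} : Finset (Finset ℕ)).filter (fun F => Nw s E q F)

/-- the sizes of the groups after a prime without a new class -/
lemma gr_up (hGRP : St_GRP) (hVN : St_V17N) {r : ℕ} (hD : Dat z s) (hz : 17 ≤ z)
    (hE : E ⊆ (∏ j, s j).primeFactors) (hG : Dt r s E) {q : ℕ} (hq : q.Prime) (hqz : z < q)
    (hqs : ¬ q ∣ ∏ j, s j) {F : Finset ℕ} (hF : F = E ∨ F = insert q E) (hn : ¬ Nw s E q F) :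
    Gr r (up s q) F := by
  have h17 : ¬ 17 ∣ ∏ j, s j := by
    intro h
    have := hD.gt 17 (by norm_num) h
    omega
  have hq34 : ¬ q ∣ 34 * ∏ j, s j := by
    intro h
    rcases (hq.dvd_mul).1 h with h | h
    · have := Nat.le_of_dvd (by norm_num) h
      have h2 : q ∣ 2 * 17 := h
      rcases (hq.dvd_mul).1 h2 with h2 | h2
      · have := Nat.le_of_dvd (by norm_num) h2
        omega
      · have := Nat.le_of_dvd (by norm_num) h2
        omega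
    · exact hqs h
  have hodd := hD.odd (by omega : 2 ≤ z)
  obtain ⟨⟨a1, a2⟩, -, -⟩ := hGRP s E q hD.sqf hodd h17 hE hq hq34 F hF
  unfold Nw at hn
  push Not at hn
  obtain ⟨n1, n2⟩ := hn
  have f0 := (V0N s E hD.sqf hodd).1
  have f17 := (hVN s E hD.sqf hodd h17).1
  have b1 := Set.ncard_le_ncard n1 f0
  have b2 := Set.ncard_le_ncard n2 f17
  obtain ⟨g1, g2, g3⟩ := hG
  rw [g1] at a1 b1
  rw [g2] at a2 b2
  refine ⟨⟨b1, a1⟩, ⟨b2, a2⟩, fun σ hσ => ?_⟩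
  obtain ⟨p, hp, hps, hpj⟩ := g3 σ hσ
  refine ⟨p, hp, ?_, hpj⟩
  rw [up_prod]
  exact hps.mul_right _

/-- classification -/
theorem cls (hNG : St_NG) (hVN : St_V17N) (hGRP : St_GRP) (hSU : St_SURV) (hTO : St_TOR) {r : ℕ}
    (hB : Big z X) (hM : ModZ z Q0 a0 b0) (hD : Dat z s)
    (hS : Sml X s) (hE : E ⊆ (∏ j, s j).primeFactors) (hG : Dt r s E)
    (ht : t ∈ AA X Q0 a0 b0 s E) (hr : Rg3 X (vv s t)) :
    GoodR r X (s 0 * t.1, s 1 * t.2) ∨ Exc X s t ∨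
      ∃ q ∈ Pt X, ∃ F ∈ BR s E q, t ∈ AA X Q0 a0 b0 (up s q) F ∧ Rg3 X (vv (up s q) t) := by
  classical
  have hz17 := hM.z17
  have hz2 : 2 ≤ z := by omega
  have hX1 : 1 ≤ X := by have := hB.two; omega
  by_cases hexc : Exc X s t
  · exact Or.inr (Or.inl hexc)
  have hne : t.1 ≠ t.2 := fun h => hexc (Or.inl h)
  have hns : ¬ ∃ q : ℕ, q.Prime ∧ (X : ℝ) ^ (1 / 4 : ℝ) ≤ q ∧ q ^ 2 ∣ vv s t :=
    fun h => hexc (Or.inr h)
  have hsize := AA_size hz2 hD hM ht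
  have heq := AA_eq hz2 hD hM ht
  obtain ⟨hb1, hb2, hb3⟩ := AA_big hB hS ht
  have hmem := ht
  unfold AA at hmem
  rw [mem_filter] at hmem
  obtain ⟨hI, hm, hn, k1, k2, k3, k4, k5, k6, k7, k8⟩ := hmem
  have hs2 : 0 < s 2 := Nat.pos_of_ne_zero (hD.ne 2)
  have hz4 : (z : ℝ) ≤ (X : ℝ) ^ (1 / 2 : ℝ) := by
    refine hB.r4.le.trans ?_
    exact Real.rpow_le_rpow_of_exponent_le (by exact_mod_cast hX1) (by norm_num)
  have hzt := hb3 z hz4
  have hv1 : 1 < vv s t := by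
    by_contra hcon
    push Not at hcon
    have h1 := hB.le (hS 2) (v := 1) (by
      rw [Nat.cast_one]
      exact Real.one_le_rpow (by exact_mod_cast hX1) (by norm_num))
    have h2 : s 2 * vv s t ≤ s 2 * 1 := Nat.mul_le_mul_left _ hcon
    omega
  have hvX : vv s t < X := by
    have : vv s t ≤ s 2 * vv s t := Nat.le_mul_of_pos_left _ hs2
    omega
  have hgt : ∀ p : ℕ, p.Prime → p ∣ vv s t → ∀ j, s j < p := by
    intro p hp h j
    have h1 := hr p hp h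
    have h0 := third hX1
    have h2 := hS j
    have h3 := hB.k4
    have : (s j : ℝ) < p := by linarith
    exact_mod_cast this
  rcases class3 hv1 hvX hr with h | h | h
  · left
    exact goodR_of hNG hVN hSU hTO hM hD ht h (nd_of_gt h (hgt _ h dvd_rfl) hD) hne
      (nd_of_gt hm hb1 hD) (nd_of_gt hn hb2 hD) hzt.1 hzt.2 hG.gr
  · obtain ⟨q, h5, h6, h7⟩ := h
    exact absurd ⟨q, h5, (third hX1).trans h6, h7⟩ hns
  · obtain ⟨q1, q2, hq1, hq2, hq12, hl, hr1, hr2⟩ := h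
    have hq1X : q1 < X := by
      have : q1 ≤ vv s t := Nat.le_of_dvd (by omega) (by rw [hl]; exact dvd_mul_right _ _)
      omega
    have hPt : q1 ∈ Pt X := by
      unfold Pt
      rw [mem_filter, mem_Icc]
      exact ⟨⟨hq1.one_lt.le, hq1X.le⟩, hq1, hr1, hr2⟩
    have hq1s : ¬ q1 ∣ ∏ j, s j :=
      nd_of_gt hq1 (hgt q1 hq1 (by rw [hl]; exact dvd_mul_right _ _)) hD
    have hq2s : ¬ q2 ∣ ∏ j, s j :=
      nd_of_gt hq2 (hgt q2 hq2 (by rw [hl]; exact dvd_mul_left _ _)) hD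
    have hq1z : z < q1 := by
      have h1 := hB.r4
      have h0 := third hX1
      have : (z : ℝ) < q1 := by linarith
      exact_mod_cast this
    have hD' := Dat_up hD hq1 hq1z hq1s
    set F := sgF ((s 0 * t.1 : ℕ) : ℤ) ((s 1 * t.2 : ℕ) : ℤ) (∏ j, up s q1 j) with hF
    have heq' : s 0 * t.1 - s 1 * t.2 = 32 * ((s 2 * q1) * q2) := by
      rw [heq, hl]; ring
    have htF : t ∈ AA X Q0 a0 b0 (up s q1) F := by
      unfold AA
      rw [mem_filter, up_zero, up_one, up_two]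
      refine ⟨hI, hm, hn, k1, k2, k3, k4, k5, k6, ?_, rfl⟩
      rw [heq']
      exact (dvd_mul_right _ _).mul_left _
    have hFE : F = E ∨ F = insert q1 E := by
      rw [hF, up_prod]
      have := sgF_up ((s 0 * t.1 : ℕ) : ℤ) ((s 1 * t.2 : ℕ) : ℤ) (∏ j, s j) q1 hD.sqf.ne_zero hq1
      rw [k8] at this
      exact this
    have hvv : vv (up s q1) t = q2 := by
      have h1 := AA_eq hz2 hD' hM htF
      rw [up_zero, up_one, up_two, heq'] at h1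
      have h2 : 0 < 32 * (s 2 * q1) := by have := hq1.pos; positivity
      have h3 : 32 * (s 2 * q1) * q2 = 32 * (s 2 * q1) * vv (up s q1) t := by
        rw [mul_assoc, h1, ← mul_assoc]
      exact (Nat.eq_of_mul_eq_mul_left h2 h3).symm
    by_cases hFb : Nw s E q1 F
    swap
    · left
      have hq1m : ¬ t.1 ∣ ∏ j, up s q1 j := by
        rw [up_prod]
        intro h
        rcases (hm.dvd_mul).1 h with h | h
        · exact nd_of_gt hm hb1 hD h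
        · have h1 := (Nat.prime_dvd_prime_iff_eq hm hq1).1 h
          have := (hb3 q1 hr2).1
          omega
      have hq1n : ¬ t.2 ∣ ∏ j, up s q1 j := by
        rw [up_prod]
        intro h
        rcases (hn.dvd_mul).1 h with h | h
        · exact nd_of_gt hn hb2 hD h
        · have h1 := (Nat.prime_dvd_prime_iff_eq hn hq1).1 h
          have := (hb3 q1 hr2).2
          omega
      have hq12' : ¬ vv (up s q1) t ∣ ∏ j, up s q1 j := by
        rw [up_prod, hvv]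
        intro h
        rcases (hq2.dvd_mul).1 h with h | h
        · exact hq2s h
        · have h1 := (Nat.prime_dvd_prime_iff_eq hq2 hq1).1 h
          omega
      have h5 := goodR_of hNG hVN hSU hTO hM hD' htF (by rw [hvv]; exact hq2) hq12' hne hq1m hq1n
        hzt.1 hzt.2 (gr_up hGRP hVN hD hz17 hE hG hq1 hq1z hq1s hFE hFb)
      rw [up_zero, up_one] at h5
      exact h5
    · right; right
      refine ⟨q1, hPt, F, ?_, htF, ?_⟩
      · unfold BR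
        rw [mem_filter, mem_insert, mem_singleton]
        exact ⟨hFE, hFb⟩
      · rw [hvv]
        intro p hp hpq
        rw [(Nat.prime_dvd_prime_iff_eq hp hq2).1 hpq]
        have : (q1 : ℝ) ≤ q2 := by exact_mod_cast hq12.le
        linarith

end cls

end Pool.Agent.Y667.MT
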