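import Pool.Agent.Y667.MT.N4

/-!
# Project MT, the main argument: the inequality for one datum
-/

set_option autoImplicit false

namespace Pool.Agent.Y667.MT

open Finset Filter Pool.Agent.W262.RK Pool.Agent.W307.RT Pool.Agent.W307.RS Pool.Agent.W307.SE
  Pool.Agent.W307.FK Pool.Agent.Y667.RP Pool.Agent.Y667.RZ

open Classical in
/-- the number of the bad signs -/
lemma BR_card (s : Fin 3 → ℕ) (E : Finset ℕ) (q : ℕ) :
    ((BR s E q).card : ℝ) ≤ 1 + (if Ty2 s E q then (1 : ℝ) else 0) := by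
  have h2 : (BR s E q).card ≤ 2 := (card_filter_le _ _).trans card_le_two
  by_cases hT : Ty2 s E q
  · rw [if_pos hT]
    have : ((BR s E q).card : ℝ) ≤ (2 : ℕ) := by exact_mod_cast h2
    push_cast at this
    linarith
  · rw [if_neg hT, add_zero]
    have h1 : (BR s E q).card ≤ 1 := by
      rw [card_le_one]
      intro F hF G hG
      unfold BR at hF hG
      rw [mem_filter, mem_insert, mem_singleton] at hF hG
      by_contra hne
      apply hT
      rcases hF with ⟨hF1 | hF1, hF2⟩ <;> rcases hG with ⟨hG1 | hG1, hG2⟩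
      · exact absurd (hF1.trans hG1.symm) hne
      · rw [hF1] at hF2
        rw [hG1] at hG2
        exact ⟨hF2, hG2⟩
      · rw [hF1] at hF2
        rw [hG1] at hG2
        exact ⟨hG2, hF2⟩
      · exact absurd (hF1.trans hG1.symm) hne
    exact_mod_cast h1

open Classical in
/-- the number of the sifted pairs -/
lemma cnt3 (hNG : St_NG) (hVN : St_V17N) (hGRP : St_GRP) (hSU : St_SURV) (hTO : St_TOR)
    {r : ℕ} {z Q0 a0 b0 X : ℕ} {s : Fin 3 → ℕ} {E : Finset ℕ}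
    (hB : Big z X) (hM : ModZ z Q0 a0 b0) (hD : Dat z s) (hS : Sml X s)
    (hE : E ⊆ (∏ j, s j).primeFactors) (hG : Dt r s E) :
    (((AA X Q0 a0 b0 s E).filter (fun t => RR3 X z (vv s t))).card : ℝ) ≤
      (((AA X Q0 a0 b0 s E).filter (fun t => Rg3 X (vv s t) ∧
        GoodR r X (s 0 * t.1, s 1 * t.2))).card : ℝ) +
      (((AA X Q0 a0 b0 s E).filter (fun t => Rg3 X (vv s t) ∧ Exc X s t)).card : ℝ) +
      ∑ q ∈ Pt X, ∑ F ∈ BR s E q, (((AA X Q0 a0 b0 (up s q) F).filter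
        (fun t => RR3 X z (vv (up s q) t))).card : ℝ) := by
  have hz17 := hM.z17
  have hz2 : 2 ≤ z := by omega
  have hrg : ∀ t ∈ AA X Q0 a0 b0 s E, RR3 X z (vv s t) → Rg3 X (vv s t) := by
    intro t ht h p hp hpv
    by_contra hcon
    push Not at hcon
    rcases Nat.lt_or_ge z p with h1 | h1
    · exact h p hp h1 hcon hpv
    · exact AA_small hz2 hD hM ht hp h1 hpv
  have hrr : ∀ l : ℕ, Rg3 X l → RR3 X z l := by
    intro l h p hp _ h2 h3
    have := h p hp h3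
    linarith
  have hsub : (AA X Q0 a0 b0 s E).filter (fun t => RR3 X z (vv s t)) ⊆
      ((AA X Q0 a0 b0 s E).filter (fun t => Rg3 X (vv s t) ∧ GoodR r X (s 0 * t.1, s 1 * t.2)) ∪
      (AA X Q0 a0 b0 s E).filter (fun t => Rg3 X (vv s t) ∧ Exc X s t)) ∪
      (Pt X).biUnion (fun q => (BR s E q).biUnion (fun F => (AA X Q0 a0 b0 (up s q) F).filter
        (fun t => RR3 X z (vv (up s q) t)))) := by
    intro t ht
    rw [mem_filter] at ht
    have hr := hrg t ht.1 ht.2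
    rw [mem_union, mem_union]
    rcases cls hNG hVN hGRP hSU hTO hB hM hD hS hE hG ht.1 hr with h | h | ⟨q, hq, F, hF, h1, h2⟩
    · left; left
      exact mem_filter.2 ⟨ht.1, hr, h⟩
    · left; right
      exact mem_filter.2 ⟨ht.1, hr, h⟩
    · right
      exact mem_biUnion.2 ⟨q, hq, mem_biUnion.2 ⟨F, hF, mem_filter.2 ⟨h1, hrr _ h2⟩⟩⟩
  have h1 := card_le_card hsub
  have h2 := (card_union_le _ _).trans (add_le_add (card_union_le
    ((AA X Q0 a0 b0 s E).filter (fun t => Rg3 X (vv s t) ∧ GoodR r X (s 0 * t.1, s 1 * t.2)))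
    ((AA X Q0 a0 b0 s E).filter (fun t => Rg3 X (vv s t) ∧ Exc X s t)))
    (card_biUnion_le (s := Pt X) (t := fun q => (BR s E q).biUnion (fun F =>
      (AA X Q0 a0 b0 (up s q) F).filter (fun t => RR3 X z (vv (up s q) t))))))
  have h3 : ∑ q ∈ Pt X, ((BR s E q).biUnion (fun F =>
      (AA X Q0 a0 b0 (up s q) F).filter (fun t => RR3 X z (vv (up s q) t)))).card ≤
      ∑ q ∈ Pt X, ∑ F ∈ BR s E q, ((AA X Q0 a0 b0 (up s q) F).filter
        (fun t => RR3 X z (vv (up s q) t))).card := sum_le_sum fun q _ => card_biUnion_le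
  have h4 := h1.trans (h2.trans (Nat.add_le_add_left h3 _))
  exact_mod_cast h4

open Classical in
/-- the inequality for one datum -/
theorem DATAR (hSV : St_SV3) (hCNT : St_CNT) (hNG : St_NG) (hVN : St_V17N) (hHALF : St_HALF2)
    (hGRP : St_GRP) (hSU : St_SURV) (hTO : St_TOR) (r : ℕ) :
    ∃ z1 : ℕ, 17 ≤ z1 ∧ ∀ z : ℕ, z1 ≤ z →
    ∃ c : ℝ, 0 < c ∧ ∃ X0 : ℕ, ∀ X : ℕ, X0 ≤ X → Big z X ∧ ∀ (Q0 a0 b0 : ℕ) (s : Fin 3 → ℕ)
      (E : Finset ℕ), ModZ z Q0 a0 b0 → Dat z s → Sml X s → E ⊆ (∏ j, s j).primeFactors →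
      Dt r s E → Dsc X (136 * ∏ j, s j) ≤ 1 / 1000 →
      c * (mA X Q0 s / Real.log X) ≤
        (((AA X Q0 a0 b0 s E).filter (fun t => Rg3 X (vv s t) ∧
          GoodR r X (s 0 * t.1, s 1 * t.2))).card : ℝ) +
        (((AA X Q0 a0 b0 s E).filter (fun t => Rg3 X (vv s t) ∧ Exc X s t)).card : ℝ) +
        2 * (Real.log X * Er X Q0 z s) := by
  obtain ⟨A0, C0, hA0, hSV⟩ := hSV
  refine ⟨max C0 17, le_max_right _ _, fun z hz => ?_⟩
  have hz17 : 17 ≤ z := (le_max_right _ _).trans hz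
  have hz2 : 2 ≤ z := by omega
  obtain ⟨ε, hε, hε8, N0, hSV⟩ := hSV z ((le_max_left _ _).trans hz) (A0 / 1000) (by positivity)
  obtain ⟨cV, hcV, X1, hX1, hprod⟩ := prod_low
  obtain ⟨X2, hX2⟩ := big_eventually z
  obtain ⟨X3, hX3⟩ := mert_third (1 / 1000) (by norm_num)
  have e4 := (pow_tendsto (e := 1 / 3 - 3 / 2000) (by norm_num)).eventually_gt_atTop (136 : ℝ)
  obtain ⟨X4, hX4⟩ := e4.exists_forall_of_atTop
  refine ⟨ε * (A0 / 100) * cV, by positivity, max (max (max N0 X1) (max X2 X3)) X4,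
    fun X hX => ?_⟩
  have hX123 : max (max N0 X1) (max X2 X3) ≤ X := (le_max_left _ _).trans hX
  have hN0 : N0 ≤ X := ((le_max_left _ _).trans (le_max_left _ _)).trans hX123
  have hX1' : X1 ≤ X := ((le_max_right _ _).trans (le_max_left _ _)).trans hX123
  have hX2' : X2 ≤ X := ((le_max_left _ _).trans (le_max_right _ _)).trans hX123
  have hX3' : X3 ≤ X := ((le_max_right _ _).trans (le_max_right _ _)).trans hX123
  have hX4' := hX4 X ((le_max_right _ _).trans hX)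
  obtain ⟨hB, hk9⟩ := hX2 X hX2'
  refine ⟨hB, fun Q0 a0 b0 s E hM hD hS hE hG hdsc => ?_⟩
  have hX2n : 2 ≤ X := hB.two
  have hXr : (0 : ℝ) < X := by positivity
  have hL : 0 < Real.log X := Real.log_pos (by exact_mod_cast (by omega : 1 < X))
  have h1X : (1 : ℝ) ≤ X := by exact_mod_cast (by omega : 1 ≤ X)
  obtain ⟨κ, hκdef⟩ : ∃ κ : ℝ, κ = (X : ℝ) ^ (1 / 2000 : ℝ) := ⟨_, rfl⟩
  have hκ : 0 < κ := by rw [hκdef]; positivity
  rw [← hκdef] at hk9
  have hSκ : ∀ j, (s j : ℝ) ≤ κ := by rw [hκdef]; exact hS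
  have hs012 : ((s 0 : ℝ)) * s 1 * s 2 ≤ κ ^ 3 := by
    have h0 := hSκ 0
    have h1 := hSκ 1
    have h2 := hSκ 2
    calc ((s 0 : ℝ)) * s 1 * s 2 ≤ κ * κ * κ := by gcongr
      _ = κ ^ 3 := by ring
  have hprodr : (((∏ j, s j : ℕ)) : ℝ) ≤ κ ^ 3 := by
    rw [Fin.prod_univ_three]
    push_cast
    exact hs012
  have hSX : (∏ j, s j) ≤ X := by
    have h3 : (((∏ j, s j : ℕ)) : ℝ) ≤ X := by
      refine hprodr.trans ?_
      have h99 : (1 : ℝ) ≤ (X : ℝ) ^ (99 / 100 : ℝ) := Real.one_le_rpow h1X (by norm_num)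
      have h5 : 0 ≤ κ ^ 3 := by positivity
      nlinarith
    exact_mod_cast h3
  have h136 : ((136 * (∏ j, s j : ℕ) : ℕ) : ℝ) < (X : ℝ) ^ (1 / 3 : ℝ) := by
    push_cast
    have h5 : κ ^ 3 = (X : ℝ) ^ (3 / 2000 : ℝ) := by
      rw [hκdef, ← Real.rpow_natCast ((X : ℝ) ^ (1 / 2000 : ℝ)) 3, ← Real.rpow_mul hXr.le]
      norm_num
    have h6 : (X : ℝ) ^ (1 / 3 : ℝ) = (X : ℝ) ^ (1 / 3 - 3 / 2000 : ℝ) * κ ^ 3 := by
      rw [h5, ← Real.rpow_add hXr]
      norm_num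
    rw [h6]
    have h7 : 0 < κ ^ 3 := by positivity
    push_cast at hprodr
    calc (136 : ℝ) * ∏ j, (s j : ℝ) ≤ 136 * κ ^ 3 := by
          exact mul_le_mul_of_nonneg_left hprodr (by norm_num)
      _ < _ := mul_lt_mul_of_pos_right hX4' h7
  obtain ⟨A, hA⟩ : ∃ A : ℝ, A = mA X Q0 s := ⟨_, rfl⟩
  have hA_nn : 0 ≤ A := by rw [hA]; exact mA_nonneg X Q0 s
  -- the lower bound
  have hlow := (hSV X hN0 (ℕ × ℕ) (AA X Q0 a0 b0 s E) (vv s) (gg s) A (∏ j, s j) hA_nn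
    hD.sqf.ne_zero hSX (fun p hp _ => gg_bd hp)).1
  -- the upper bounds
  have hupfacts : ∀ q ∈ Pt X, q.Prime ∧ (X : ℝ) ^ (1 / 4 : ℝ) ≤ q ∧
      (q : ℝ) ≤ (X : ℝ) ^ (1 / 2 : ℝ) ∧ z < q ∧ (∀ j, s j < q) ∧ ¬ q ∣ ∏ j, s j := by
    intro q hq
    unfold Pt at hq
    rw [mem_filter] at hq
    obtain ⟨-, hqp, h1, h2⟩ := hq
    have h0 := third (by omega : 1 ≤ X)
    have h3 : z < q := by
      have := hB.r4
      have : (z : ℝ) < q := by linarith
      exact_mod_cast this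
    have h4 : ∀ j, s j < q := by
      intro j
      have h5 := hS j
      have h6 := hB.k4
      have : (s j : ℝ) < q := by linarith
      exact_mod_cast this
    exact ⟨hqp, h0.trans h1, h2, h3, h4, nd_of_gt hqp h4 hD⟩
  have hup : ∀ q ∈ Pt X, ∀ F ∈ BR s E q, (((AA X Q0 a0 b0 (up s q) F).filter
        (fun t => RR3 X z (vv (up s q) t))).card : ℝ) ≤
      ε * (A * (1 / 2 * (1 / ((q : ℝ) - 1))) * VP ε X z s) * (A0 / (12 / 25) + A0 / 1000) +
      Real.log X * ∑ u ∈ Lev z ((X : ℝ) ^ (49 / 100 : ℝ)), er X Q0 (up s q) u := by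
    intro q hq F hF
    obtain ⟨hqp, h1, h2, h3, h4, h5⟩ := hupfacts q hq
    have hD' := Dat_up hD hqp h3 h5
    have hSX' : (∏ j, up s q j) ≤ X := by
      have h6 : (((∏ j, up s q j : ℕ)) : ℝ) ≤ X := by
        rw [up_prod, Fin.prod_univ_three]
        push_cast
        have h7 : (X : ℝ) ^ (1 / 2 : ℝ) ≤ (X : ℝ) ^ (99 / 100 : ℝ) :=
          Real.rpow_le_rpow_of_exponent_le h1X (by norm_num)
        calc (s 0 : ℝ) * s 1 * s 2 * q ≤ κ ^ 3 * (X : ℝ) ^ (99 / 100 : ℝ) := by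
              gcongr
              exact h2.trans h7
          _ ≤ 8 * κ ^ 3 * (X : ℝ) ^ (99 / 100 : ℝ) := by
              have : 0 ≤ κ ^ 3 * (X : ℝ) ^ (99 / 100 : ℝ) := by positivity
              linarith
          _ ≤ X := hk9
      exact_mod_cast h6
    have h8 := (hSV X hN0 (ℕ × ℕ) (AA X Q0 a0 b0 (up s q) F) (vv (up s q))
      (gg (up s q)) (mA X Q0 (up s q)) (∏ j, up s q j) (mA_nonneg _ _ _)
      hD'.sqf.ne_zero hSX' (fun p hp _ => gg_bd hp)).2 (12 / 25) (by norm_num) (by norm_num)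
    have h9 : ∏ p ∈ (Ioc z X).filter (fun p : ℕ => p.Prime ∧ (p : ℝ) < (X : ℝ) ^ ε),
        (1 - gg (up s q) p) = VP ε X z s := VP_up hX2n (by linarith) hqp h1
    rw [h9, mA_up hD hqp h5, ← hA] at h8
    have h10 : (12 / 25 + 1 / 100 : ℝ) = 49 / 100 := by norm_num
    rw [h10] at h8
    refine h8.trans ?_
    have hEb : F ⊆ (∏ j, up s q j).primeFactors := by
      have h11 : E ⊆ (∏ j, up s q j).primeFactors := by
        refine hE.trans ?_
        rw [up_prod]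
        exact Nat.primeFactors_mono (dvd_mul_right _ _) (mul_ne_zero hD.sqf.ne_zero hqp.ne_zero)
      unfold BR at hF
      rw [mem_filter, mem_insert, mem_singleton] at hF
      rcases hF.1 with h | h
      · rw [h]; exact h11
      · rw [h, insert_subset_iff]
        refine ⟨?_, h11⟩
        rw [up_prod]
        exact Nat.mem_primeFactors.2 ⟨hqp, dvd_mul_left _ _,
          mul_ne_zero hD.sqf.ne_zero hqp.ne_zero⟩
    have h12 : ∑ u ∈ Lev z ((X : ℝ) ^ (49 / 100 : ℝ)), Rq (AA X Q0 a0 b0 (up s q) F)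
        (vv (up s q)) (gg (up s q)) (mA X Q0 (up s q)) u ≤
        ∑ u ∈ Lev z ((X : ℝ) ^ (49 / 100 : ℝ)), er X Q0 (up s q) u := by
      apply sum_le_sum
      intro r hr
      obtain ⟨r1, r2, r3⟩ := mem_Lev (by positivity) hr
      refine Rq_le hCNT hz2 hM hD' hEb r2 r3 ?_
      rw [up_zero, up_one, up_two]
      have h13 : ((8 * (s 0 * s 1) * (s 2 * q * r) : ℕ) : ℝ) ≤ X := by
        push_cast
        have e : 8 * ((s 0 : ℝ) * s 1) * (s 2 * q * r) = 8 * (s 0 * s 1 * s 2) * (q * r) := by ring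
        rw [e]
        have h14 : (q : ℝ) * r ≤ (X : ℝ) ^ (99 / 100 : ℝ) := by
          calc (q : ℝ) * r ≤ (X : ℝ) ^ (1 / 2 : ℝ) * (X : ℝ) ^ (49 / 100 : ℝ) := by gcongr
            _ = (X : ℝ) ^ (99 / 100 : ℝ) := by rw [← Real.rpow_add hXr]; norm_num
        calc 8 * ((s 0 : ℝ) * s 1 * s 2) * (q * r) ≤ 8 * κ ^ 3 * (X : ℝ) ^ (99 / 100 : ℝ) := by
              gcongr
          _ ≤ X := hk9
      exact_mod_cast h13
    rw [mA_up hD hqp h5, ← hA] at h12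
    have := mul_le_mul_of_nonneg_left h12 hL.le
    linarith
  have hWsum := cnt3 (z := z) (Q0 := Q0) (a0 := a0) (b0 := b0) (X := X) hNG hVN hGRP hSU hTO hB hM hD hS hE hG
  have hR1 : ∑ q ∈ Lev z ((X : ℝ) ^ (99 / 100 : ℝ)), Rq (AA X Q0 a0 b0 s E) (vv s) (gg s) A q ≤
      ∑ q ∈ Lev z ((X : ℝ) ^ (99 / 100 : ℝ)), er X Q0 s q := by
    apply sum_le_sum
    intro r hr
    obtain ⟨r1, r2, r3⟩ := mem_Lev (by positivity) hr
    rw [hA]
    refine Rq_le hCNT hz2 hM hD hE r2 r3 ?_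
    have h13 : ((8 * (s 0 * s 1) * (s 2 * r) : ℕ) : ℝ) ≤ X := by
      push_cast
      have e : 8 * ((s 0 : ℝ) * s 1) * (s 2 * r) = 8 * (s 0 * s 1 * s 2) * r := by ring
      rw [e]
      calc 8 * ((s 0 : ℝ) * s 1 * s 2) * r ≤ 8 * κ ^ 3 * (X : ℝ) ^ (99 / 100 : ℝ) := by
            gcongr
        _ ≤ X := hk9
    exact_mod_cast h13
  -- the sum over q
  obtain ⟨Λ, hΛ⟩ : ∃ Λ : ℝ, Λ = ∑ q ∈ Pt X, 1 / ((q : ℝ) - 1) := ⟨_, rfl⟩
  have hΛ1 : Λ ≤ Real.log (3 / 2) + 1 / 1000 := by rw [hΛ]; exact hX3 X hX3'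
  have hq1 : ∀ q ∈ Pt X, 0 ≤ 1 / ((q : ℝ) - 1) := by
    intro q hq
    have h1 := (hupfacts q hq).1.two_le
    have : (2 : ℝ) ≤ q := by exact_mod_cast h1
    exact div_nonneg (by norm_num) (by linarith)
  have h17s : ¬ 17 ∣ ∏ j, s j := by
    intro h
    have := hD.gt 17 (by norm_num) h
    omega
  have hTy := hHALF X s E hD.sqf (hD.odd hz2) h17s hE (by exact_mod_cast h136)
  rw [← hΛ] at hTy
  have hVP0 : 0 ≤ VP ε X z s := VP_nonneg hz2
  have hT : 0 ≤ ε * (A * VP ε X z s) := by positivity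
  obtain ⟨K1, hK1⟩ : ∃ K1 : ℝ, K1 = ε * (A * VP ε X z s) * (A0 / (12 / 25) + A0 / 1000) * (1 / 2) :=
    ⟨_, rfl⟩
  have hK1nn : 0 ≤ K1 := by rw [hK1]; positivity
  obtain ⟨e1, he1⟩ : ∃ e1 : ℕ → ℝ, e1 = fun q => ∑ u ∈ Lev z ((X : ℝ) ^ (49 / 100 : ℝ)),
      er X Q0 (up s q) u := ⟨_, rfl⟩
  have he1nn : ∀ q, 0 ≤ e1 q := fun q => by
    rw [he1]; exact sum_nonneg fun _ _ => er_nonneg _ _ _ _
  have hBS2 : ∀ q, ((BR s E q).card : ℝ) ≤ 2 := by
    intro q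
    have h2 : (BR s E q).card ≤ 2 := (card_filter_le _ _).trans card_le_two
    exact_mod_cast h2
  have hupsum : ∑ q ∈ Pt X, ∑ F ∈ BR s E q, (((AA X Q0 a0 b0 (up s q) F).filter
        (fun t => RR3 X z (vv (up s q) t))).card : ℝ) ≤
      K1 * (3 / 2 * Λ + 1 / 1000) + 2 * (Real.log X * ∑ q ∈ Pt X, e1 q) := by
    have g1 : ∀ q ∈ Pt X, ∑ F ∈ BR s E q, (((AA X Q0 a0 b0 (up s q) F).filter
        (fun t => RR3 X z (vv (up s q) t))).card : ℝ) ≤
        K1 * (1 / ((q : ℝ) - 1) + (if Ty2 s E q then 1 / ((q : ℝ) - 1) else 0)) +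
          2 * (Real.log X * e1 q) := by
      intro q hq
      have g2 : ∑ F ∈ BR s E q, (((AA X Q0 a0 b0 (up s q) F).filter
        (fun t => RR3 X z (vv (up s q) t))).card : ℝ) ≤
          ((BR s E q).card : ℝ) * (K1 * (1 / ((q : ℝ) - 1)) + Real.log X * e1 q) := by
        rw [← nsmul_eq_mul]
        apply sum_le_card_nsmul
        intro F hF
        refine (hup q hq F hF).trans (le_of_eq ?_)
        rw [hK1, he1]
        ring
      refine g2.trans ?_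
      have g3 := BR_card s E q
      have g4 := hBS2 q
      have g5 : 0 ≤ K1 * (1 / ((q : ℝ) - 1)) := mul_nonneg hK1nn (hq1 q hq)
      have g6 : 0 ≤ Real.log X * e1 q := mul_nonneg hL.le (he1nn q)
      rw [mul_add]
      have g7 : ((BR s E q).card : ℝ) * (Real.log X * e1 q) ≤ 2 * (Real.log X * e1 q) :=
        mul_le_mul_of_nonneg_right g4 g6
      have g8 : ((BR s E q).card : ℝ) * (K1 * (1 / ((q : ℝ) - 1))) ≤
          (1 + (if Ty2 s E q then (1 : ℝ) else 0)) * (K1 * (1 / ((q : ℝ) - 1))) :=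
        mul_le_mul_of_nonneg_right g3 g5
      have g9 : (1 + (if Ty2 s E q then (1 : ℝ) else 0)) * (K1 * (1 / ((q : ℝ) - 1))) =
          K1 * (1 / ((q : ℝ) - 1) + (if Ty2 s E q then 1 / ((q : ℝ) - 1) else 0)) := by
        split_ifs <;> ring
      linarith
    refine (sum_le_sum g1).trans ?_
    rw [sum_add_distrib, ← mul_sum, sum_add_distrib, ← hΛ, ← sum_filter, ← mul_sum, ← mul_sum]
    have g10 : Λ + ∑ q ∈ (Pt X).filter (fun q => Ty2 s E q), 1 / ((q : ℝ) - 1) ≤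
        3 / 2 * Λ + 1 / 1000 := by
      linarith
    have g11 := mul_le_mul_of_nonneg_left g10 hK1nn
    linarith
  have hbr := bracket3 hA0 hΛ1
  have hbrT := mul_le_mul_of_nonneg_left hbr hT
  have hPtPr : ∑ q ∈ Pt X, e1 q ≤ ∑ q ∈ Pr X, e1 q :=
    sum_le_sum_of_subset_of_nonneg (Pt_sub X (by omega)) fun q _ _ => he1nn q
  have hEr : Er X Q0 z s = ∑ q ∈ Lev z ((X : ℝ) ^ (99 / 100 : ℝ)), er X Q0 s q +
    ∑ q1 ∈ Pr X, e1 q1 := by rw [he1]; rfl
  have hlow' : ε * (A * VP ε X z s) * (A0 * (50 / 49 * Real.log (97 / 50)) - A0 / 1000) -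
      Real.log X * ∑ q ∈ Lev z ((X : ℝ) ^ (99 / 100 : ℝ)), Rq (AA X Q0 a0 b0 s E) (vv s) (gg s) A q ≤
      (((AA X Q0 a0 b0 s E).filter (fun t => RR3 X z (vv s t))).card : ℝ) := hlow
  have hR1' := mul_le_mul_of_nonneg_left hR1 hL.le
  have hlev0 : 0 ≤ Real.log X * ∑ q ∈ Lev z ((X : ℝ) ^ (99 / 100 : ℝ)), er X Q0 s q :=
    mul_nonneg hL.le (sum_nonneg fun _ _ => er_nonneg _ _ _ _)
  have hPtPr' := mul_le_mul_of_nonneg_left hPtPr hL.le
  have hVlow := hprod X hX1' z ((X : ℝ) ^ ε) (gg s) hz2 (fun p hp _ =>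
    ⟨(gg_bd hp).1, (gg_bd hp).2.1⟩)
  have hK1' : ε * (A * VP ε X z s) * ((A0 / (12 / 25) + A0 / 1000) *
      (1 / 2 * (3 / 2 * Λ + 1 / 1000))) = K1 * (3 / 2 * Λ + 1 / 1000) := by
    rw [hK1]; ring
  have hfin : ε * (A * VP ε X z s) * (A0 / 100) ≤
      (((AA X Q0 a0 b0 s E).filter (fun t => Rg3 X (vv s t) ∧
          GoodR r X (s 0 * t.1, s 1 * t.2))).card : ℝ) +
        (((AA X Q0 a0 b0 s E).filter (fun t => Rg3 X (vv s t) ∧ Exc X s t)).card : ℝ) +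
        2 * (Real.log X * Er X Q0 z s) := by
    rw [hEr, mul_add]
    rw [mul_sub, hK1'] at hbrT
    linarith
  refine le_trans ?_ hfin
  rw [← hA]
  have h20 : ε * (A0 / 100) * cV * (A / Real.log X) = ε * (A0 / 100) * A * (cV / Real.log X) := by
    ring
  have h21 : ε * (A * VP ε X z s) * (A0 / 100) = ε * (A0 / 100) * A * VP ε X z s := by ring
  rw [h20, h21]
  exact mul_le_mul_of_nonneg_left hVlow (by positivity)

end Pool.Agent.Y667.MT
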